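import Pool.Agent.P8H98.DF.Stm

/-! # Project DF: CC, the words are the step sequences -/

set_option autoImplicit false

namespace Pool.Agent.P8H4.DF

open Finset
open Pool.Agent.P8H98.DF
open Pool.Agent.H725R2.SB (P P_zero P_succ IsSaw SawSet mem_SawSet cc)

/-- the step sequence of a word -/
def xi (n : ℕ) (u : List Dir) : ℕ → Z4 := fun i =>
  if i < n then vec (u.getD (n - 1 - i) .xp) else 0

theorem P_xi {n : ℕ} {u : List Dir} (hu : u.length = n) :
    ∀ i, i ≤ n → P (xi n u) i = pos (u.drop (n - i)) := by
  intro i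
  induction i with
  | zero =>
    intro _
    rw [P_zero, Nat.sub_zero, ← hu, List.drop_length]
    rfl
  | succ i ih =>
    intro hi
    rw [P_succ, ih (by omega)]
    have h1 := pos_drop u (n - 1 - i) (by omega)
    have h2 : n - 1 - i + 1 = n - i := by omega
    have h3 : n - (i + 1) = n - 1 - i := by omega
    rw [h2] at h1
    rw [h3, h1, xi, if_pos (by omega)]

theorem saw_iff {n : ℕ} {u : List Dir} (hu : u.length = n) :
    SAW u ↔ ∀ i j, i < j → j ≤ n → P (xi n u) i ≠ P (xi n u) j := by
  have hl : (path u).length = n + 1 := by rw [path_length, hu]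
  unfold SAW
  rw [List.nodup_iff_injective_getElem]
  constructor
  · intro h i j hij hj heq
    rw [P_xi hu i (by omega), P_xi hu j hj] at heq
    have h1 := @h ⟨n - i, by omega⟩ ⟨n - j, by omega⟩ (by
      show (path u)[n - i] = (path u)[n - j]
      rw [path_getElem, path_getElem, heq])
    rw [Fin.mk.injEq] at h1
    omega
  · rintro h ⟨a, ha⟩ ⟨b, hb⟩ heq
    have heq' : (path u)[a] = (path u)[b] := heq
    rw [path_getElem, path_getElem] at heq'
    have e1 : ∀ c, c ≤ n → pos (u.drop c) = P (xi n u) (n - c) := by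
      intro c hc
      rw [P_xi hu _ (by omega), Nat.sub_sub_self hc]
    rw [e1 a (by omega), e1 b (by omega)] at heq'
    rw [Fin.mk.injEq]
    rcases lt_trichotomy a b with h1 | h1 | h1
    · exact absurd heq'.symm (h (n - b) (n - a) (by omega) (by omega))
    · exact h1
    · exact absurd heq' (h (n - a) (n - b) (by omega) (by omega))

/-- **CC** -/
theorem cc_thm : S_CC := by
  intro n
  unfold cc
  refine Finset.card_bij (fun u _ => xi n u) ?_ ?_ ?_
  · intro u hu
    rw [mem_SS] at hu
    rw [mem_SawSet]
    refine ⟨fun i hi => ?_, fun i hi => ?_, (saw_iff hu.1).1 hu.2⟩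
    · rw [xi, if_pos hi, Om4, mem_image]
      exact ⟨_, mem_univ _, rfl⟩
    · rw [xi, if_neg (by omega)]
  · intro u hu u' hu' heq
    rw [mem_SS] at hu hu'
    apply List.ext_getElem (by rw [hu.1, hu'.1])
    intro i h1 h2
    have h3 := congrFun heq (n - 1 - i)
    have h4 : n - 1 - (n - 1 - i) = i := by omega
    simp only [xi] at h3
    rw [if_pos (by omega), if_pos (by omega), h4, List.getD_eq_getElem _ _ h1,
      List.getD_eq_getElem _ _ h2] at h3
    exact vec_inj h3
  · intro ξ hξ
    rw [mem_SawSet] at hξ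
    have h1 : ∀ i, ∃ d : Dir, i < n → vec d = ξ i := by
      intro i
      by_cases hi : i < n
      · have h2 := hξ.step i hi
        rw [Om4, mem_image] at h2
        obtain ⟨d, _, hd⟩ := h2
        exact ⟨d, fun _ => hd⟩
      · exact ⟨.xp, fun h => absurd h hi⟩
    choose d hd using h1
    have hlen : (List.ofFn fun k : Fin n => d (n - 1 - k)).length = n := by simp
    have hxi : xi n (List.ofFn fun k : Fin n => d (n - 1 - k)) = ξ := by
      funext i
      unfold xi
      split_ifs with hi
      · rw [List.getD_eq_getElem _ _ (by rw [hlen]; omega), List.getElem_ofFn]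
        have h4 : n - 1 - (n - 1 - i) = i := by omega
        simp only [h4]
        exact hd i hi
      · exact (hξ.zero i (by omega)).symm
    refine ⟨_, ?_, hxi⟩
    rw [mem_SS]
    refine ⟨hlen, (saw_iff hlen).2 ?_⟩
    rw [hxi]
    exact hξ.inj

end Pool.Agent.P8H4.DF
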