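import Pool.Agent.P8H98.DF.Stm
import Pool.Agent.P8H4.DF.Cc

/-! # Project DF: MU, the connective constant of `ℤ⁴` is at least `27 / 5` -/

set_option autoImplicit false

namespace Pool.Agent.P8H4.DF

open Pool.Agent.P8H98.DF
open Pool.Agent.H725R2.SB (cc mu cc_add)

/-! ### Transverse walks -/

/-- no steps in the direction of the first axis -/
def Trv (w : List Dir) : Prop := ∀ d ∈ w, d ≠ .xp ∧ d ≠ .xm

/-- the transverse directions -/
def td : List Dir := [.yp, .ym, .zp, .zm, .tp, .tm]

/-- one more step -/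
def nx (w : List Dir) : List (List Dir) :=
  td.filterMap fun d => if pos w + vec d ∈ path w then none else some (d :: w)

/-- transverse self-avoiding walks of length `k` -/
def tl : ℕ → List (List Dir)
  | 0 => [[]]
  | k + 1 => (tl k).flatMap nx

theorem mem_nx {w v : List Dir} : v ∈ nx w ↔ ∃ d ∈ td, pos w + vec d ∉ path w ∧ v = d :: w := by
  unfold nx
  rw [List.mem_filterMap]
  constructor
  · rintro ⟨d, hd, h⟩
    split_ifs at h with h1
    exact ⟨d, hd, h1, (Option.some.inj h).symm⟩
  · rintro ⟨d, hd, h1, rfl⟩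
    exact ⟨d, hd, by rw [if_neg h1]⟩

theorem mem_tl : ∀ (k : ℕ) (w : List Dir), w ∈ tl k → w.length = k ∧ SAW w ∧ Trv w := by
  intro k
  induction k with
  | zero =>
    intro w hw
    rw [tl, List.mem_singleton] at hw
    subst hw
    refine ⟨rfl, ?_, ?_⟩
    · simp [SAW, path]
    · intro d hd
      simp at hd
  | succ k ih =>
    intro v hv
    rw [tl, List.mem_flatMap] at hv
    obtain ⟨w, hw, hv⟩ := hv
    obtain ⟨h1, h2, h3⟩ := ih w hw
    obtain ⟨d, hd, h4, rfl⟩ := mem_nx.1 hv
    refine ⟨by rw [List.length_cons, h1], ?_, ?_⟩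
    · show (path (d :: w)).Nodup
      rw [path, List.nodup_cons]
      exact ⟨h4, h2⟩
    · intro e he
      rw [List.mem_cons] at he
      rcases he with rfl | he
      · revert hd
        cases e <;> decide
      · exact h3 e he

theorem nodup_tl (k : ℕ) : (tl k).Nodup := by
  induction k with
  | zero => simp [tl]
  | succ k ih =>
    rw [tl, List.nodup_flatMap]
    refine ⟨fun w _ => ?_, ?_⟩
    · unfold nx
      refine List.Nodup.filterMap ?_ (by decide)
      intro a a' b hb hb'
      split_ifs at hb hb' with h1 h2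
      · simp at hb
      · simp at hb
      · simp at hb'
      · rw [Option.mem_def, Option.some.injEq] at hb hb'
        have := hb.trans hb'.symm
        exact (List.cons.inj this).1
    · refine List.Nodup.pairwise_of_forall_ne ih ?_
      intro w _ w' _ hne
      rw [Function.onFun, List.disjoint_left]
      intro v hv hv'
      obtain ⟨d, _, _, rfl⟩ := mem_nx.1 hv
      obtain ⟨d', _, _, h⟩ := mem_nx.1 hv'
      exact hne (List.cons.inj h).2

theorem len_tl : (tl 0).length = 1 ∧ (tl 1).length = 6 ∧ (tl 2).length = 30 ∧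
    (tl 3).length = 150 ∧ (tl 4).length = 726 ∧ (tl 5).length = 3534 := by
  refine ⟨?_, ?_, ?_, ?_, ?_, ?_⟩
  · decide +kernel
  · decide +kernel
  · decide +kernel
  · decide +kernel
  · decide +kernel
  · decide +kernel

/-! ### Good walks -/

theorem vec_trv {d : Dir} (h : d ≠ .xp ∧ d ≠ .xm) : (vec d).1 = 0 := by
  cases d
  · exact absurd rfl h.1
  · exact absurd rfl h.2
  all_goals rfl

theorem trv_pos {t : List Dir} (h : Trv t) : (pos t).1 = 0 := by
  induction t with
  | nil => rfl
  | cons d t ih =>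
    have h1 := ih fun e he => h e (List.mem_cons_of_mem _ he)
    rw [pos, Prod.fst_add, h1, vec_trv (h d List.mem_cons_self), add_zero]

theorem trv_path {t : List Dir} (h : Trv t) : ∀ p ∈ path t, p.1 = 0 := by
  induction t with
  | nil =>
    intro p hp
    rw [path, List.mem_singleton] at hp
    rw [hp]
    rfl
  | cons d t ih =>
    intro p hp
    rw [path, List.mem_cons] at hp
    rcases hp with rfl | hp
    · exact trv_pos h
    · exact ih (fun e he => h e (List.mem_cons_of_mem _ he)) p hp

/-- self-avoiding, and the end point has the largest first coordinate -/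
def Good (w : List Dir) : Prop := SAW w ∧ ∀ p ∈ path w, p.1 ≤ (pos w).1

theorem good_nil : Good [] := by
  refine ⟨by simp [SAW, path], fun p hp => ?_⟩
  rw [path, List.mem_singleton] at hp
  rw [hp]
  rfl

theorem good_step {t u : List Dir} (ht : SAW t) (ht' : Trv t) (hu : Good u) :
    Good (t ++ .xp :: u) := by
  have e1 : (pos (.xp :: u)).1 = (pos u).1 + 1 := rfl
  have e2 : pos (t ++ .xp :: u) = pos t + pos (.xp :: u) := pos_append _ _
  have e3 : (pos (t ++ .xp :: u)).1 = (pos u).1 + 1 := by
    rw [e2, Prod.fst_add, trv_pos ht', zero_add, e1]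
  have e4 : path (t ++ .xp :: u) =
      ((path t).dropLast.map (fun p => p + pos (.xp :: u))) ++ path (.xp :: u) :=
    path_append _ _
  have e5 : path (.xp :: u) = pos (.xp :: u) :: path u := rfl
  have e6 : (path t).dropLast ++ [0] = path t := by
    have h := List.dropLast_append_getLast (path_ne_nil t)
    rw [path_getLast] at h
    exact h
  have e7 : (path t).dropLast.Nodup ∧ (0 : Z4) ∉ (path t).dropLast := by
    have h : (path t).Nodup := ht
    rw [← e6, List.nodup_append] at h
    refine ⟨h.1, fun h0 => ?_⟩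
    exact h.2.2 0 h0 0 (List.mem_singleton_self _) rfl
  have e8 : ∀ p ∈ (path t).dropLast, p.1 = 0 := fun p hp =>
    trv_path ht' p (List.dropLast_subset _ hp)
  refine ⟨?_, ?_⟩
  · show (path (t ++ .xp :: u)).Nodup
    rw [e4, e5, List.nodup_append]
    refine ⟨e7.1.map (add_left_injective _), ?_, ?_⟩
    · rw [List.nodup_cons]
      refine ⟨fun h => ?_, hu.1⟩
      have := hu.2 _ h
      omega
    · intro a ha b hb hab
      subst hab
      rw [List.mem_map] at ha
      obtain ⟨p, hp, rfl⟩ := ha
      rw [List.mem_cons] at hb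
      rcases hb with hb | hb
      · have : p = 0 := by
          have h := hb
          rwa [add_eq_right] at h
        exact e7.2 (this ▸ hp)
      · have h1 := hu.2 _ hb
        rw [Prod.fst_add, e8 p hp, e1] at h1
        omega
  · intro p hp
    rw [e4, e5, List.mem_append, List.mem_cons] at hp
    rw [e3]
    rcases hp with hp | hp | hp
    · rw [List.mem_map] at hp
      obtain ⟨q, hq, rfl⟩ := hp
      rw [Prod.fst_add, e8 q hq, e1, zero_add]
    · rw [hp, e1]
    · have := hu.2 p hp
      omega

theorem good_replicate (N : ℕ) : Good (List.replicate N .xp) := by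
  induction N with
  | zero => exact good_nil
  | succ N ih =>
    have := good_step (t := []) (by simp [SAW, path]) (fun d hd => by simp at hd) ih
    rwa [List.nil_append, ← List.replicate_succ] at this

theorem app_inj {a : Dir} : ∀ {t t' u u' : List Dir}, a ∉ t → a ∉ t' →
    t ++ a :: u = t' ++ a :: u' → t = t' ∧ u = u'
  | [], [], u, u', _, _, h => by
    rw [List.nil_append, List.nil_append] at h
    exact ⟨rfl, (List.cons.inj h).2⟩
  | [], d :: t', u, u', _, h2, h => by
    rw [List.nil_append, List.cons_append] at h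
    exact absurd ((List.cons.inj h).1 ▸ List.mem_cons_self) h2
  | d :: t, [], u, u', h1, _, h => by
    rw [List.nil_append, List.cons_append] at h
    exact absurd ((List.cons.inj h).1 ▸ List.mem_cons_self) h1
  | d :: t, d' :: t', u, u', h1, h2, h => by
    rw [List.cons_append, List.cons_append] at h
    obtain ⟨e1, e2⟩ := List.cons.inj h
    obtain ⟨e3, e4⟩ := app_inj (fun h => h1 (List.mem_cons_of_mem _ h))
      (fun h => h2 (List.mem_cons_of_mem _ h)) e2
    exact ⟨by rw [e1, e3], e4⟩

theorem sum_ineq {y s0 s1 s2 s3 s4 s5 : ℝ} (hy : 0 < y)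
    (g0 : y * (27 / 5) ^ 5 ≤ (27 / 5) ^ 6 * s0) (g1 : y * (27 / 5) ^ 4 ≤ (27 / 5) ^ 6 * s1)
    (g2 : y * (27 / 5) ^ 3 ≤ (27 / 5) ^ 6 * s2) (g3 : y * (27 / 5) ^ 2 ≤ (27 / 5) ^ 6 * s3)
    (g4 : y * (27 / 5) ^ 1 ≤ (27 / 5) ^ 6 * s4) (g5 : y * (27 / 5) ^ 0 ≤ (27 / 5) ^ 6 * s5) :
    y * (27 / 5) ^ 6 ≤ (27 / 5) ^ 6 * (1 * s0 + 6 * s1 + 30 * s2 + 150 * s3 + 726 * s4 +
      3534 * s5) := by
  norm_num at *
  linarith

theorem exists_S (N : ℕ) : ∃ S : Finset (List Dir), (∀ w ∈ S, w.length = N ∧ Good w) ∧
    (27 / 5 : ℝ) ^ N ≤ (27 / 5) ^ 6 * S.card := by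
  induction N using Nat.strong_induction_on with
  | _ N ih =>
    rcases lt_or_ge N 6 with hN | hN
    · refine ⟨{List.replicate N .xp}, ?_, ?_⟩
      · intro w hw
        rw [Finset.mem_singleton] at hw
        rw [hw]
        exact ⟨List.length_replicate, good_replicate N⟩
      · rw [Finset.card_singleton, Nat.cast_one, mul_one]
        exact pow_le_pow_right₀ (by norm_num) (by omega)
    · have ih' : ∀ m, ∃ S : Finset (List Dir), m < N → (∀ w ∈ S, w.length = m ∧ Good w) ∧
          (27 / 5 : ℝ) ^ m ≤ (27 / 5) ^ 6 * S.card := by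
        intro m
        by_cases hm : m < N
        · obtain ⟨S, hS⟩ := ih m hm
          exact ⟨S, fun _ => hS⟩
        · exact ⟨∅, fun h => absurd h hm⟩
      choose S hS using ih'
      let Q : ℕ → Finset (List Dir) := fun k =>
        ((tl k).toFinset ×ˢ S (N - k - 1)).image fun q => q.1 ++ Dir.xp :: q.2
      have hnot : ∀ k, ∀ t ∈ tl k, Dir.xp ∉ t := fun k t ht h => ((mem_tl k t ht).2.2 _ h).1 rfl
      have hQc : ∀ k, (Q k).card = (tl k).length * (S (N - k - 1)).card := by
        intro k
        rw [Finset.card_image_of_injOn, Finset.card_product,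
          List.toFinset_card_of_nodup (nodup_tl k)]
        rintro ⟨t, u⟩ h1 ⟨t', u'⟩ h2 heq
        rw [Finset.mem_coe, Finset.mem_product, List.mem_toFinset] at h1 h2
        have h3 := app_inj (hnot k t h1.1) (hnot k t' h2.1) heq
        rw [Prod.mk.injEq]
        exact h3
      refine ⟨(Finset.range 6).biUnion Q, ?_, ?_⟩
      · intro w hw
        rw [Finset.mem_biUnion] at hw
        obtain ⟨k, hk, hw⟩ := hw
        rw [Finset.mem_range] at hk
        obtain ⟨⟨t, u⟩, h1, rfl⟩ := Finset.mem_image.1 hw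
        rw [Finset.mem_product, List.mem_toFinset] at h1
        obtain ⟨h2, h3, h4⟩ := mem_tl k t h1.1
        obtain ⟨h5, h6⟩ := (hS (N - k - 1) (by omega)).1 u h1.2
        refine ⟨?_, good_step h3 h4 h6⟩
        show (t ++ Dir.xp :: u).length = N
        rw [List.length_append, List.length_cons, h2, h5]
        omega
      · rw [Finset.card_biUnion]
        · have h0 : ∀ k, k < 6 → (27 / 5 : ℝ) ^ (N - 6) * (27 / 5) ^ (5 - k) ≤
              (27 / 5) ^ 6 * (S (N - k - 1)).card := by
            intro k hk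
            rw [← pow_add]
            have e : N - 6 + (5 - k) = N - k - 1 := by omega
            rw [e]
            exact (hS (N - k - 1) (by omega)).2
          obtain ⟨l0, l1, l2, l3, l4, l5⟩ := len_tl
          have g0 := h0 0 (by norm_num)
          have g1 := h0 1 (by norm_num)
          have g2 := h0 2 (by norm_num)
          have g3 := h0 3 (by norm_num)
          have g4 := h0 4 (by norm_num)
          have g5 := h0 5 (by norm_num)
          have e : (27 / 5 : ℝ) ^ N = (27 / 5) ^ (N - 6) * (27 / 5) ^ 6 := by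
            rw [← pow_add, Nat.sub_add_cancel hN]
          have hpos : (0 : ℝ) < (27 / 5) ^ (N - 6) := by positivity
          have hs : ((∑ k ∈ Finset.range 6, (Q k).card : ℕ) : ℝ) =
              1 * ((S (N - 0 - 1)).card : ℝ) + 6 * ((S (N - 1 - 1)).card : ℝ) +
              30 * ((S (N - 2 - 1)).card : ℝ) + 150 * ((S (N - 3 - 1)).card : ℝ) +
              726 * ((S (N - 4 - 1)).card : ℝ) + 3534 * ((S (N - 5 - 1)).card : ℝ) := by
            rw [Finset.sum_range_succ, Finset.sum_range_succ, Finset.sum_range_succ,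
              Finset.sum_range_succ, Finset.sum_range_succ, Finset.sum_range_one, hQc, hQc, hQc,
              hQc, hQc, hQc, l0, l1, l2, l3, l4, l5]
            push_cast
            ring
          rw [hs, e]
          exact sum_ineq hpos g0 g1 g2 g3 g4 g5
        · intro k hk k' hk' hne
          rw [Function.onFun, Finset.disjoint_left]
          intro w hw hw'
          obtain ⟨⟨t, u⟩, h1, h2⟩ := Finset.mem_image.1 hw
          obtain ⟨⟨t', u'⟩, h1', h2'⟩ := Finset.mem_image.1 hw'
          rw [Finset.mem_product, List.mem_toFinset] at h1 h1'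
          have h3 := app_inj (hnot k t h1.1) (hnot k' t' h1'.1) (h2.trans h2'.symm)
          apply hne
          rw [← (mem_tl k t h1.1).1, ← (mem_tl k' t' h1'.1).1, h3.1]

theorem mu_ge {x c : ℝ} (hx : 0 < x) (hc : 0 < c) (h : ∀ N : ℕ, x ^ N ≤ c * cc Om4 N) :
    x ≤ mu Om4 := by
  have key : ∀ n : ℕ, x ^ n ≤ cc Om4 n := by
    intro n
    have hcc : (0 : ℝ) < cc Om4 n := by
      have h1 := (pow_pos hx n).trans_le (h n)
      by_contra h2
      have h3 := mul_nonpos_of_nonneg_of_nonpos hc.le (not_lt.1 h2)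
      linarith
    have hpow : ∀ k : ℕ, (cc Om4 ((k + 1) * n) : ℝ) ≤ (cc Om4 n : ℝ) ^ (k + 1) := by
      intro k
      induction k with
      | zero => rw [zero_add, one_mul, pow_one]
      | succ k ih =>
        have h1 : ((cc Om4 ((k + 1) * n + n) : ℕ) : ℝ) ≤
            (cc Om4 ((k + 1) * n) : ℝ) * cc Om4 n := by
          exact_mod_cast cc_add Om4 ((k + 1) * n) n
        have h2 : (k + 1 + 1) * n = (k + 1) * n + n := by ring
        rw [h2, pow_succ]
        exact h1.trans (mul_le_mul_of_nonneg_right ih hcc.le)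
    by_contra hcon
    have hr : 1 < x ^ n / cc Om4 n := by
      rw [one_lt_div hcc]
      exact not_le.1 hcon
    obtain ⟨k, hk⟩ := pow_unbounded_of_one_lt c hr
    have h1 : (x ^ n / cc Om4 n) ^ (k + 1) ≤ c := by
      rw [div_pow, div_le_iff₀ (pow_pos hcc _), ← pow_mul, mul_comm n]
      exact (h _).trans (mul_le_mul_of_nonneg_left (hpow k) hc.le)
    have h2 : (x ^ n / cc Om4 n) ^ k ≤ (x ^ n / cc Om4 n) ^ (k + 1) :=
      pow_le_pow_right₀ hr.le (Nat.le_succ k)
    linarith
  unfold mu
  rw [← Real.log_le_iff_le_exp hx]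
  refine le_csInf (Set.Nonempty.image _ ⟨1, Set.mem_Ici.2 le_rfl⟩) ?_
  rintro _ ⟨n, hn, rfl⟩
  have hn0 : (0 : ℝ) < n := by exact_mod_cast (Set.mem_Ici.1 hn)
  show Real.log x ≤ Real.log (cc Om4 n) / n
  rw [le_div_iff₀ hn0, mul_comm, ← Real.log_pow]
  exact Real.log_le_log (pow_pos hx n) (key n)

/-- **MU** -/
theorem mu_thm : S_MU := by
  refine mu_ge (c := (27 / 5) ^ 6) (by norm_num) (by positivity) fun N => ?_
  obtain ⟨S, hS, hc⟩ := exists_S N
  refine hc.trans (mul_le_mul_of_nonneg_left ?_ (by positivity))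
  rw [← cc_thm N]
  have : S ⊆ SS N := fun w hw => mem_SS.2 ⟨(hS w hw).1, (hS w hw).2.1⟩
  exact_mod_cast Finset.card_le_card this

end Pool.Agent.P8H4.DF
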